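import Mathlib
import Pool.Agent.helper68.AM.Spec

/-!
Project sl: (AM, MP_d52931_gt), module MBA: from growing triples to all admissible triples.
-/

set_option autoImplicit false

namespace AM

open Pool.Agent.helper72.Sq Finset

lemma MBA_children {P : Tri} (hL : MB (Lm P)) (hR : MB (Rm P)) : MB P := by
  refine ⟨fun R => HS_finite_of P R (hL.fin R) (hR.fin R), ?_⟩
  obtain ⟨a, ⟨K1, h1⟩, h2⟩ := hL.est
  obtain ⟨b, ⟨K1', h1'⟩, h2'⟩ := hR.est
  refine ⟨a + b, ⟨K1 + K1', fun r hr => ?_⟩, fun B => ?_⟩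
  · rw [Ht_split r (hL.fin r) (hR.fin r)]
    have e1 : Ht (Lm P) r + Ht (Rm P) r - (a + b) * r ^ 2 =
      (Ht (Lm P) r - a * r ^ 2) + (Ht (Rm P) r - b * r ^ 2) := by ring
    rw [e1]
    refine (abs_add_le _ _).trans ((add_le_add (h1 r hr) (h1' r hr)).trans (le_of_eq ?_))
    ring
  · obtain ⟨K2, h3⟩ := h2 B
    obtain ⟨K2', h3'⟩ := h2' B
    refine ⟨K2 + K2', fun R hR1 D hD => ?_⟩
    have e1 : ∑ d ∈ Finset.Icc 1 D, mu d * (Ht P (R / d) - (a + b) * (R / d) ^ 2) =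
        ∑ d ∈ Finset.Icc 1 D, mu d * (Ht (Lm P) (R / d) - a * (R / d) ^ 2) +
        ∑ d ∈ Finset.Icc 1 D, mu d * (Ht (Rm P) (R / d) - b * (R / d) ^ 2) := by
      rw [← Finset.sum_add_distrib]
      refine Finset.sum_congr rfl fun d _ => ?_
      rw [Ht_split (R / d) (hL.fin _) (hR.fin _)]
      ring
    rw [e1]
    refine (abs_add_le _ _).trans ((add_le_add (h3 R hR1 D hD) (h3' R hR1 D hD)).trans
      (le_of_eq ?_))
    ring

lemma MBA_aux (hFIN : FIN_stmt) (M0 ρ : ℝ) (hρ0 : 0 < ρ)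
    (hρ : ∀ P : Tri, Adm P → P.1 ≤ M0 → P.2.1 ≤ M0 → 2 ≤ ρ * P.1 ∧ 2 ≤ ρ * P.2.1) :
    ∀ n : ℕ, ∀ P : Tri, Adm P → P.1 ≤ M0 → P.2.1 ≤ M0 → P.1 * P.2.1 * ρ ^ n ≤ 4 → MB P := by
  intro n
  induction n with
  | zero =>
    intro P hP _ _ h4
    exfalso
    have := hP.x2
    have := hP.y2
    nlinarith
  | succ n ih =>
    intro P hP hx hy h4
    have hx2 := hP.x2
    have hy2 := hP.y2
    have hz2 := hP.z2
    have hGood : ∀ Q : Tri, Adm Q → Q.1 * Q.2.1 ≤ 2 * Q.2.2 → MB Q := by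
      intro Q hQ hzQ
      exact hFIN Q ⟨hQ.x2, hQ.y2, hQ.kpos, hzQ⟩
    by_cases hz : P.1 * P.2.1 ≤ 2 * P.2.2
    · exact hGood P hP hz
    · push Not at hz
      have hρP := hρ P hP hx hy
      apply MBA_children
      · by_cases hzL : (Lm P).1 * (Lm P).2.1 ≤ 2 * (Lm P).2.2
        · exact hGood _ hP.L hzL
        · push Not at hzL
          simp only [Lm] at hzL
          have hxz : P.1 * P.2.2 < 2 * P.2.1 := by linarith
          refine ih (Lm P) hP.L hx ?_ ?_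
          · simp only [Lm]; nlinarith
          · simp only [Lm]
            refine le_trans ?_ h4
            have : P.1 * P.2.2 ≤ P.1 * P.2.1 * ρ := by nlinarith
            calc P.1 * P.2.2 * ρ ^ n ≤ (P.1 * P.2.1 * ρ) * ρ ^ n := by gcongr
              _ = _ := by rw [pow_succ]; ring
      · by_cases hzR : (Rm P).1 * (Rm P).2.1 ≤ 2 * (Rm P).2.2
        · exact hGood _ hP.R hzR
        · push Not at hzR
          simp only [Rm] at hzR
          have hyz : P.2.2 * P.2.1 < 2 * P.1 := by linarith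
          refine ih (Rm P) hP.R ?_ hy ?_
          · simp only [Rm]; nlinarith
          · simp only [Rm]
            refine le_trans ?_ h4
            have : P.2.2 * P.2.1 ≤ P.1 * P.2.1 * ρ := by nlinarith
            calc P.2.2 * P.2.1 * ρ ^ n ≤ (P.1 * P.2.1 * ρ) * ρ ^ n := by gcongr
              _ = _ := by rw [pow_succ]; ring

theorem MBA (hFIN : FIN_stmt) : MBA_stmt := by
  intro P hP
  set M0 := max P.1 P.2.1 with hM0
  have hM2 : 2 < M0 := hP.x2.trans_le (le_max_left _ _)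
  set ε := 16 / (M0 ^ 2 - 4) with hε
  have hM4 : 0 < M0 ^ 2 - 4 := by nlinarith
  have hε0 : 0 < ε := by rw [hε]; positivity
  set τ := √(4 + ε) with hτ
  have hτ2 : 2 < τ := by
    rw [hτ, show (2 : ℝ) = √4 by
      rw [show (4 : ℝ) = 2 ^ 2 by norm_num, Real.sqrt_sq (by norm_num)]]
    exact Real.sqrt_lt_sqrt (by norm_num) (by linarith)
  have hleg : ∀ Q : Tri, Adm Q → Q.1 ≤ M0 → Q.2.1 ≤ M0 → τ ≤ Q.1 ∧ τ ≤ Q.2.1 := by
    intro Q hQ hx hy
    have hd := hQ.disc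
    have hx2 := hQ.x2
    have hy2 := hQ.y2
    have hx4 : 0 < Q.1 ^ 2 - 4 := by nlinarith
    have hy4 : 0 < Q.2.1 ^ 2 - 4 := by nlinarith
    have hxM : Q.1 ^ 2 - 4 ≤ M0 ^ 2 - 4 := by nlinarith
    have hyM : Q.2.1 ^ 2 - 4 ≤ M0 ^ 2 - 4 := by nlinarith
    constructor
    · apply Real.sqrt_le_iff.2
      refine ⟨by linarith, ?_⟩
      have : ε ≤ Q.1 ^ 2 - 4 := by
        rw [hε, div_le_iff₀ hM4]
        nlinarith
      linarith
    · apply Real.sqrt_le_iff.2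
      refine ⟨by linarith, ?_⟩
      have : ε ≤ Q.2.1 ^ 2 - 4 := by
        rw [hε, div_le_iff₀ hM4]
        nlinarith
      linarith
  have hρ1 : 2 / τ < 1 := by rw [div_lt_one (by linarith)]; exact hτ2
  have hρ0 : 0 < 2 / τ := by positivity
  have hx2 := hP.x2
  have hy2 := hP.y2
  obtain ⟨n, hn⟩ := exists_pow_lt_of_lt_one (show 0 < 4 / (P.1 * P.2.1) by positivity) hρ1
  refine MBA_aux hFIN M0 (2 / τ) hρ0 ?_ n P hP (le_max_left _ _) (le_max_right _ _) ?_
  · intro Q hQ hx hy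
    obtain ⟨h1, h2⟩ := hleg Q hQ hx hy
    constructor
    · rw [div_mul_eq_mul_div, le_div_iff₀ (by linarith)]; linarith
    · rw [div_mul_eq_mul_div, le_div_iff₀ (by linarith)]; linarith
  · have hpos : 0 < P.1 * P.2.1 := by positivity
    rw [lt_div_iff₀ hpos] at hn
    linarith

end AM
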