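import Mathlib
import Pool.Agent.helper68.AM.Spec
import Pool.Agent.helper68.AM.Tree

/-!
Project sl: (AM, MP_d52931_gt), module RSP: sign, primitivity and size of the resonant direction.
-/

set_option autoImplicit false

namespace AM

open Pool.Agent.helper72.Sq Finset

lemma RSP_La_lin (y : Nd) (d1 d2 : ℤ) :
    y.La d1 d2 = (d1 : ℝ) * y.La 1 0 + (d2 : ℝ) * y.La 0 1 := by
  simp only [Nd.La, Nd.al, Nd.be]
  push_cast
  ring

lemma RSP_exp_small (κ m0 : ℝ) (hκ : 0 < κ) (hm : 0 < m0) :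
    ∃ j1 : ℕ, ∀ j : ℕ, j1 ≤ j → Real.exp (-(κ * j)) ≤ m0 / 2 := by
  refine ⟨⌈2 / (κ * m0)⌉₊ + 1, fun j hj => ?_⟩
  have h1 : 2 / (κ * m0) ≤ (j : ℝ) := by
    have := Nat.le_ceil (2 / (κ * m0))
    have h2 : ((⌈2 / (κ * m0)⌉₊ + 1 : ℕ) : ℝ) ≤ j := by exact_mod_cast hj
    push_cast at h2
    linarith
  have h3 : 2 ≤ j * (κ * m0) := by
    rwa [div_le_iff₀ (by positivity)] at h1
  have h4 : 0 < κ * j := by
    by_contra h
    push Not at h
    nlinarith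
  have h5 : κ * j + 1 ≤ Real.exp (κ * j) := Real.add_one_le_exp _
  rw [Real.exp_neg, inv_le_comm₀ (Real.exp_pos _) (by positivity)]
  rw [inv_div, div_le_iff₀ hm]
  nlinarith

theorem RSP (hMN : MN_stmt) (hGE : GE_stmt) : RSP_stmt := by
  intro P hP κ hκ
  obtain ⟨-, -, hE1a, hE1b, hE2a, hE2b, -⟩ := hGE P hP
  have hl1 : 0 < ltau P.1 := ltau_pos hP.x2
  have hl2 : 0 < ltau P.2.1 := ltau_pos hP.y2
  have hE1 : 0 < E1 P := lt_of_lt_of_le hl2 hE1a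
  have hE2 : 0 < E2 P := lt_of_lt_of_le hl1 hE2a
  have hL1 : 0 < len P.1 := lt_of_lt_of_le hE2 hE2b
  have hL2 : 0 < len P.2.1 := lt_of_lt_of_le hE1 hE1b
  obtain ⟨j1, hj1⟩ := RSP_exp_small κ (min (E1 P) (E2 P)) hκ (lt_min hE1 hE2)
  set c5 : ℝ := min 1 (min (E2 P / (2 * len P.2.1)) (E1 P / (2 * len P.1))) with hc5
  have hc5p : 0 < c5 := lt_min one_pos (lt_min (by positivity) (by positivity))
  refine ⟨c5, hc5p, j1, ?_⟩
  intro j M hj y hy a s hbad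
  obtain ⟨ha, hs, hs4, hcop, hres⟩ := hbad
  have hG := GN_lvs M M (rt P) (GN_rt hP) y hy
  have hdet := hG.2
  have hdetZ : (y.v1 : ℤ) * y.w2 = y.v2 * y.w1 + 1 := by exact_mod_cast hdet
  have hal : y.al (dx y a s) (dy y a s) = -(a : ℤ) := by
    simp only [Nd.al, dx, dy]
    linear_combination (-(a : ℤ)) * hdetZ
  have hbe : y.be (dx y a s) (dy y a s) = (s : ℤ) := by
    simp only [Nd.be, dx, dy]
    linear_combination (s : ℤ) * hdetZ
  have hLa : y.La (dx y a s) (dy y a s) = (s : ℝ) * y.l2 - a * y.l1 := by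
    simp only [Nd.La]
    rw [hal, hbe]
    push_cast
    ring
  have hLaabs : |y.La (dx y a s) (dy y a s)| ≤ Real.exp (-(κ * j)) := by rw [hLa]; exact hres
  -- A and B
  have hA := hMN _ _ _ _ (Par_of_Gr hP) M M (rt P) (GN_rt hP) y hy (-1) 0
    (by simp [Nd.al, rt]) (by simp [Nd.be, rt])
  have hB := hMN _ _ _ _ (Par_of_Gr hP) M M (rt P) (GN_rt hP) y hy 0 1
    (by simp [Nd.al, rt]) (by simp [Nd.be, rt])
  obtain ⟨hA1, hA2, hA3, hA4, -, -⟩ := hA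
  obtain ⟨hB1, hB2, hB3, hB4, -, -⟩ := hB
  have hAneg : y.La (-1) 0 = - y.La 1 0 := by
    rw [RSP_La_lin y (-1) 0]; push_cast; ring
  have eI1 : (rt P).I (-1) 0 = - len P.1 := by simp [Nd.I, Nd.al, Nd.be, rt, Nd.l1]
  have eS1 : (rt P).S (-1) 0 = - E2 P := by simp [Nd.S, Nd.al, Nd.be, rt]
  have eI2 : (rt P).I 0 1 = E1 P := by simp [Nd.I, Nd.al, Nd.be, rt]
  have eS2 : (rt P).S 0 1 = len P.2.1 := by simp [Nd.S, Nd.al, Nd.be, rt, Nd.l2]
  rw [eI1] at hA1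
  rw [eS1] at hA4
  rw [eI2] at hB1
  rw [eS2] at hB4
  rw [hAneg] at hA2 hA3
  set A := y.La 1 0 with hAdef
  set B := y.La 0 1 with hBdef
  have hAlo : E2 P ≤ A := by linarith
  have hAhi : A ≤ len P.1 := by linarith
  have hBlo : E1 P ≤ B := by linarith
  have hBhi : B ≤ len P.2.1 := by linarith
  have hlin := RSP_La_lin y (dx y a s) (dy y a s)
  rw [← hAdef, ← hBdef] at hlin
  set d1 := dx y a s with hd1
  set d2 := dy y a s with hd2
  have hsm := hj1 j hj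
  have hsm1 : Real.exp (-(κ * j)) ≤ E1 P / 2 := hsm.trans (by
    have := min_le_left (E1 P) (E2 P); linarith)
  have hsm2 : Real.exp (-(κ * j)) ≤ E2 P / 2 := hsm.trans (by
    have := min_le_right (E1 P) (E2 P); linarith)
  rw [hlin] at hLaabs
  have hab := abs_le.1 hLaabs
  have haZ : (1 : ℤ) ≤ a := by exact_mod_cast ha
  have hsZ : (1 : ℤ) ≤ s := by exact_mod_cast hs
  have halZ : d1 * (y.w2 : ℤ) - d2 * y.w1 = -(a : ℤ) := by
    have := hal; simp only [Nd.al] at this; exact this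
  have hbeZ : (y.v1 : ℤ) * d2 - y.v2 * d1 = (s : ℤ) := by
    have := hbe; simp only [Nd.be] at this; exact this
  have hw1 : (0 : ℤ) ≤ y.w1 := Int.natCast_nonneg _
  have hw2 : (0 : ℤ) ≤ y.w2 := Int.natCast_nonneg _
  have hv1 : (0 : ℤ) ≤ y.v1 := Int.natCast_nonneg _
  have hv2 : (0 : ℤ) ≤ y.v2 := Int.natCast_nonneg _
  -- signs
  have hneg : d1 < 0 := by
    by_contra hcon
    push Not at hcon
    have hd1R : (0 : ℝ) ≤ d1 := by exact_mod_cast hcon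
    rcases lt_trichotomy d2 0 with h | h | h
    · have h1 : 0 ≤ d1 * (y.w2 : ℤ) := mul_nonneg hcon hw2
      have h2 : d2 * (y.w1 : ℤ) ≤ 0 := mul_nonpos_of_nonpos_of_nonneg h.le hw1
      omega
    · -- d2 = 0, d1 = 0 impossible, d1 ≥ 1
      have h1 : 0 ≤ d1 * (y.w2 : ℤ) := mul_nonneg hcon hw2
      rw [h, zero_mul] at halZ
      omega
    · have h1 : (1 : ℝ) ≤ d2 := by exact_mod_cast h
      have h2 : 0 ≤ (d1 : ℝ) * A := mul_nonneg hd1R (by linarith)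
      have h3 : B ≤ (d2 : ℝ) * B := le_mul_of_one_le_left (by linarith) h1
      linarith [hab.2]
  have hpos : 0 < d2 := by
    by_contra hcon
    push Not at hcon
    have hd2R : (d2 : ℝ) ≤ 0 := by exact_mod_cast hcon
    have h1 : (d1 : ℝ) ≤ -1 := by
      have : d1 ≤ -1 := by omega
      exact_mod_cast this
    have h2 : (d2 : ℝ) * B ≤ 0 := mul_nonpos_of_nonpos_of_nonneg hd2R (by linarith)
    have h3 : (d1 : ℝ) * A ≤ -1 * A := mul_le_mul_of_nonneg_right h1 (by linarith)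
    linarith [hab.1]
  -- sizes
  have hd1R : (1 : ℝ) ≤ -(d1 : ℝ) := by
    have : (1 : ℤ) ≤ -d1 := by omega
    exact_mod_cast this
  have hd2R : (1 : ℝ) ≤ (d2 : ℝ) := by exact_mod_cast hpos
  have c5a : c5 ≤ 1 := min_le_left _ _
  have c5b : c5 * (2 * len P.2.1) ≤ E2 P := by
    have : c5 ≤ E2 P / (2 * len P.2.1) := (min_le_right _ _).trans (min_le_left _ _)
    rwa [le_div_iff₀ (by positivity)] at this
  have c5c : c5 * (2 * len P.1) ≤ E1 P := by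
    have : c5 ≤ E1 P / (2 * len P.1) := (min_le_right _ _).trans (min_le_right _ _)
    rwa [le_div_iff₀ (by positivity)] at this
  have k1 : c5 * (-(d1 : ℝ)) ≤ d2 := by
    -- d2 * l2 ≥ d2 * B ≥ |d1| A - eps ≥ |d1| E2 / 2
    have hd1n : (0 : ℝ) ≤ -(d1 : ℝ) := by linarith
    have e1 : (-(d1 : ℝ)) * E2 P ≤ (-(d1 : ℝ)) * A := mul_le_mul_of_nonneg_left hAlo hd1n
    have e2 : (d2 : ℝ) * B ≤ d2 * len P.2.1 := mul_le_mul_of_nonneg_left hBhi (by linarith)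
    have e3 : E2 P / 2 ≤ (-(d1 : ℝ)) * (E2 P / 2) := le_mul_of_one_le_left (by linarith) hd1R
    have e4 : (-(d1 : ℝ)) * (E2 P / 2) ≤ d2 * len P.2.1 := by
      linarith [hab.1]
    have e5 : (-(d1 : ℝ)) * (c5 * (2 * len P.2.1)) ≤ (-(d1 : ℝ)) * E2 P :=
      mul_le_mul_of_nonneg_left c5b hd1n
    have e6 : (c5 * (-(d1 : ℝ))) * len P.2.1 ≤ d2 * len P.2.1 := by linarith
    exact le_of_mul_le_mul_right e6 hL2
  have k2 : c5 * (d2 : ℝ) ≤ -(d1 : ℝ) := by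
    have hd2n : (0 : ℝ) ≤ (d2 : ℝ) := by linarith
    have e1 : (d2 : ℝ) * E1 P ≤ (d2 : ℝ) * B := mul_le_mul_of_nonneg_left hBlo hd2n
    have e2 : (-(d1 : ℝ)) * A ≤ (-(d1 : ℝ)) * len P.1 :=
      mul_le_mul_of_nonneg_left hAhi (by linarith)
    have e3 : E1 P / 2 ≤ (d2 : ℝ) * (E1 P / 2) := le_mul_of_one_le_left (by linarith) hd2R
    have e4 : (d2 : ℝ) * (E1 P / 2) ≤ (-(d1 : ℝ)) * len P.1 := by
      linarith [hab.2]
    have e5 : (d2 : ℝ) * (c5 * (2 * len P.1)) ≤ (d2 : ℝ) * E1 P :=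
      mul_le_mul_of_nonneg_left c5c hd2n
    have e6 : (c5 * (d2 : ℝ)) * len P.1 ≤ (-(d1 : ℝ)) * len P.1 := by linarith
    exact le_of_mul_le_mul_right e6 hL1
  have hbeR : (y.v1 : ℝ) * d2 + y.v2 * (-(d1 : ℝ)) = s := by
    have : (((y.v1 : ℤ) * d2 - y.v2 * d1 : ℤ) : ℝ) = ((s : ℤ) : ℝ) := by rw [hbeZ]
    push_cast at this
    linarith
  have hv1R : (0 : ℝ) ≤ y.v1 := Nat.cast_nonneg _
  have hv2R : (0 : ℝ) ≤ y.v2 := Nat.cast_nonneg _
  have hm1 : ((y.m1 : ℕ) : ℝ) = y.v1 + y.v2 := by simp [Nd.m1]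
  refine ⟨hneg, hpos, ?_, ?_, ?_, ?_⟩
  · have hc : IsCoprime (a : ℤ) (s : ℤ) := Nat.isCoprime_iff_coprime.2 hcop
    obtain ⟨u, v, huv⟩ := hc
    refine ⟨-u * y.w2 - v * y.v2, u * y.w1 + v * y.v1, ?_⟩
    linear_combination (-u) * halZ + v * hbeZ + huv
  · rw [hlin]; exact hLaabs
  · rw [hm1, ← hbeR]
    have f0 : c5 * (-(d1 : ℝ)) ≤ -(d1 : ℝ) := mul_le_of_le_one_left (by linarith) c5a
    have f1 := mul_le_mul_of_nonneg_right k1 hv1R
    have f2 := mul_le_mul_of_nonneg_right f0 hv2R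
    linarith
  · rw [hm1, ← hbeR]
    have f0 : c5 * (d2 : ℝ) ≤ (d2 : ℝ) := mul_le_of_le_one_left (by linarith) c5a
    have f1 := mul_le_mul_of_nonneg_right f0 hv1R
    have f2 := mul_le_mul_of_nonneg_right k2 hv2R
    linarith

end AM
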